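import Pool.Agent.K6.H67.LR.Top

/-!
# Project LR (helper67): the uniform version
-/

set_option autoImplicit false

namespace Pool.Agent.K6.H67.LR

open Topology Matrix Pool.Agent.K6.H77.KT Pool.Agent.K6.H77.LT

open scoped commutatorElement

/-- One subgroup of finite index for all the representations of dimension `n` over commutative rings. -/
theorem unif_all {G : Type} [Group G] (hG : IsKSpecialGroup G) (hL : LinSolvable G)
    (hP : PosSolvable G) {H : Subgroup G} (hH : H.FiniteIndex) (n : ℕ) :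
    ∃ A : Subgroup H, A.FiniteIndex ∧ ∀ (S : Type) [CommRing S] (ρ : H →* GL (Fin n) S),
      ∀ a ∈ A, ∀ b ∈ A, ρ a * ρ b = ρ b * ρ a := by
  let X : Type := Σ (N : ℕ) (I : Ideal (MvPolynomial (Fin N) ℤ)),
    (H →* GL (Fin n) (MvPolynomial (Fin N) ℤ ⧸ I))
  let σ : ∀ x : X, H →* GL (Fin n) (MvPolynomial (Fin x.1) ℤ ⧸ x.2.1) := fun x => x.2.2
  obtain ⟨A, hA, hc⟩ := va_of_vs hG hH (prodRep σ) (vsk_of_range (ring_vs hG hL hP hH (prodRep σ)))
  refine ⟨A, hA, ?_⟩
  have hx : ∀ x : X, ∀ a ∈ A, ∀ b ∈ A, σ x a * σ x b = σ x b * σ x a := by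
    intro x a ha b hb
    have h1 := hc a ha b hb
    have h2 : prodRep σ (a * b) = prodRep σ (b * a) := by rw [map_mul, map_mul, h1]
    rw [← map_mul, ← map_mul]
    apply Units.ext
    ext i j
    rw [← prodRep_apply σ (a * b) i j x, h2, prodRep_apply]
  intro S _ ρ a ha b hb
  obtain ⟨s, hs⟩ := descR H (fg_sub hG.fg hH) S n ρ
  let R : Subalgebra ℤ S := Algebra.adjoin ℤ (s : Set S)
  have hRf : Algebra.FiniteType ℤ R := (Subalgebra.fg_iff_finiteType R).1 ⟨s, rfl⟩
  obtain ⟨ρ', hρ'⟩ := hs R R.val.toRingHom Subtype.val_injective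
    (fun x hx => ⟨⟨x, Algebra.subset_adjoin hx⟩, rfl⟩)
  obtain ⟨N, f, hf⟩ := Algebra.FiniteType.iff_quotient_mvPolynomial''.1 hRf
  let e := RingHom.quotientKerEquivOfSurjective (f := (f : MvPolynomial (Fin N) ℤ →+* R)) hf
  let x : X := ⟨N, RingHom.ker (f : MvPolynomial (Fin N) ℤ →+* R),
    (Matrix.GeneralLinearGroup.map (e.symm : R →+* _)).comp ρ'⟩
  have h1 := hx x a ha b hb
  have h2 : ρ' a * ρ' b = ρ' b * ρ' a := by
    refine map_inj (φ := (e.symm : R →+* MvPolynomial (Fin N) ℤ ⧸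
      RingHom.ker (f : MvPolynomial (Fin N) ℤ →+* R))) e.symm.injective ?_
    rw [map_mul, map_mul]
    exact h1
  rw [← hρ', MonoidHom.comp_apply, MonoidHom.comp_apply, ← map_mul, h2, map_mul]

variable {G P Γ : Type} [Group G] [Group P] [TopologicalSpace P] [IsTopologicalGroup P]
  [Group Γ] [TopologicalSpace Γ] [IsTopologicalGroup Γ]

/-- A continuous homomorphism `f` from an open subgroup `H` of finite index of `Γ` to a profinite group
induces a homomorphism `σ` of a subgroup `G'` of finite index of `G` (which depends on `H` only), and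
`f` maps the part of `H` in the closure of `A ≤ G'` to the closure of `σ(A)`. Proof of helper77 (`ext_to`) with
another conclusion. -/
theorem ext_cl [CompactSpace P] [T2Space P] {ι : G →* P} {j : Γ →* P} (hc : Comparison ι j)
    {H : Subgroup Γ} (hHo : IsOpen (H : Set Γ)) (hH : H.FiniteIndex) {P' : Subgroup P}
    (hP'o : IsOpen (P' : Set P)) (hP' : P'.comap j = H) {V : Type} [Group V]
    [TopologicalSpace V] [IsTopologicalGroup V] [CompactSpace V] [T2Space V]
    [TotallyDisconnectedSpace V] (f : H →* V) (hf : Continuous f) :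
    ∃ σ : P'.comap ι →* V, ∀ (A : Set (P'.comap ι)) (h : H),
      j h ∈ closure ((fun a : P'.comap ι => ι a) '' A) → f h ∈ closure (σ '' A) := by
  have hP'f : P'.FiniteIndex := open_fi hc.dense_j hP'o (by rw [hP']; exact hH)
  let Φ₀ : Subgroup (P × V) := ((j.comp H.subtype).prod f).range
  let Φ : Subgroup (P × V) := Φ₀.topologicalClosure
  have hΦc : IsClosed (Φ : Set (P × V)) := Φ₀.isClosed_topologicalClosure
  have hΦmem : ∀ h : H, (j h, f h) ∈ Φ := fun h => Φ₀.le_topologicalClosure ⟨h, rfl⟩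
  -- existence
  have hex : ∀ x ∈ P', ∃ v : V, (x, v) ∈ Φ := by
    have h1 : IsCompact (Prod.fst '' (Φ : Set (P × V))) := hΦc.isCompact.image continuous_fst
    have h2 : P' ≤ cl ((P'.comap j).map j) := by
      have h3 := open_le j (A := ⊤) hP'o (fun x _ => by
        change x ∈ closure (((⊤ : Subgroup Γ).map j : Subgroup P) : Set P)
        rw [← MonoidHom.range_eq_map]
        exact hc.dense_j x)
      rwa [top_inf_eq] at h3
    intro x hx
    have h3 : ((cl ((P'.comap j).map j) : Subgroup P) : Set P) ⊆ Prod.fst '' (Φ : Set (P × V)) := by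
      refine closure_minimal ?_ h1.isClosed
      rintro _ ⟨h, hh, rfl⟩
      rw [hP'] at hh
      exact ⟨(j h, f ⟨h, hh⟩), hΦmem ⟨h, hh⟩, rfl⟩
    obtain ⟨⟨y, v⟩, hyv, hyx⟩ := h3 (h2 hx)
    exact ⟨v, by rwa [← hyx]⟩
  -- the basic property
  have hCL : ∀ W : Subgroup V, W.Normal → IsOpen (W : Set V) → ∃ PW : Subgroup P,
      IsOpen (PW : Set P) ∧ ∀ (x : P) (v : V), (x, v) ∈ Φ → x ∈ PW → v ∈ W := by
    intro W hW hWo
    have hWf : W.FiniteIndex := by
      have := Subgroup.quotient_finite_of_isOpen W hWo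
      exact Subgroup.finiteIndex_of_finite_quotient
    have hHW : ((W.comap f).map H.subtype).FiniteIndex :=
      Pool.Agent.N212.SG.map_finiteIndex hH (Pool.Agent.K6.H86.QS.comap_fi f hWf)
    have hHWo : IsOpen ((((W.comap f).map H.subtype) : Subgroup Γ) : Set Γ) := by
      have h1 : IsOpen ((W.comap f : Subgroup H) : Set H) := hWo.preimage hf
      exact hHo.isOpenMap_subtype_val _ h1
    obtain ⟨PW, hPWo, hPW⟩ := hc.open_sub _ hHWo hHW
    refine ⟨PW, hPWo, fun x v hxv hx => ?_⟩
    have h1 : (x, v) ∈ closure (Φ₀ : Set (P × V)) := hxv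
    rw [mem_closure_iff] at h1
    have h2 : IsOpen ((PW : Set P) ×ˢ ((fun y : V => v⁻¹ * y) ⁻¹' (W : Set V))) :=
      hPWo.prod (hWo.preimage (continuous_const.mul continuous_id))
    obtain ⟨⟨y, w⟩, ⟨hy, hw⟩, h, hh⟩ := h1 _ h2 ⟨hx, by
      change v⁻¹ * v ∈ W
      rw [inv_mul_cancel]
      exact W.one_mem⟩
    have hy' : j h = y := congrArg Prod.fst hh
    have hw' : f h = w := congrArg Prod.snd hh
    have h3 : (h : Γ) ∈ PW.comap j := by
      change j h ∈ PW
      rw [hy']
      exact hy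
    rw [hPW] at h3
    obtain ⟨h', hh', hhh⟩ := h3
    have h4 : h' = h := Subtype.ext hhh
    have h5 : f h ∈ W := h4 ▸ hh'
    have h6 : v⁻¹ * w ∈ W := hw
    rw [← hw'] at h6
    have h7 := W.mul_mem h5 (W.inv_mem h6)
    rwa [_root_.mul_inv_rev, inv_inv, mul_inv_cancel_left] at h7
  -- small open normal subgroups of `V`
  have hsmall : ∀ U : Set V, IsOpen U → (1 : V) ∈ U → ∃ W : Subgroup V, W.Normal ∧
      IsOpen (W : Set V) ∧ (W : Set V) ⊆ U := by
    intro U hU h1
    obtain ⟨W, hW⟩ := ProfiniteGrp.exist_openNormalSubgroup_sub_open_nhds_of_one hU h1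
    exact ⟨W.toSubgroup, W.isNormal', W.isOpen', hW⟩
  -- uniqueness
  have hun : ∀ (x : P) (v w : V), (x, v) ∈ Φ → (x, w) ∈ Φ → v = w := by
    intro x v w hv hw
    have h1 : (1, v⁻¹ * w) ∈ Φ := by
      have h2 := Φ.mul_mem (Φ.inv_mem hv) hw
      have h3 : (x, v)⁻¹ * (x, w) = ((1 : P), v⁻¹ * w) := by
        ext
        · exact inv_mul_cancel x
        · rfl
      rwa [h3] at h2
    by_contra hne
    obtain ⟨W, hW, hWo, hWU⟩ := hsmall {v⁻¹ * w}ᶜ isOpen_compl_singleton (by
      intro h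
      apply hne
      have h4 : (1 : V) = v⁻¹ * w := h
      rw [eq_inv_mul_iff_mul_eq, mul_one] at h4
      exact h4)
    obtain ⟨PW, -, hPW⟩ := hCL W hW hWo
    exact hWU (hPW 1 _ h1 PW.one_mem) rfl
  -- the homomorphism
  choose! F hF using hex
  let G' : Subgroup G := P'.comap ι
  let σ : G' →* V :=
    { toFun := fun g => F (ι g)
      map_one' := by
        refine hun (ι (1 : G)) _ _ (hF _ (1 : G').2) ?_
        rw [map_one]
        exact Φ.one_mem
      map_mul' := fun g g' => by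
        refine hun (ι ((g : G) * g')) _ _ (hF _ (g * g' : G').2) ?_
        rw [map_mul]
        exact Φ.mul_mem (hF _ g.2) (hF _ g'.2) }
  refine ⟨σ, fun A h hh => ?_⟩
  let E : Set (P × V) := (fun a : P'.comap ι => (ι a, σ a)) '' A
  have hE : closure E ⊆ (Φ : Set (P × V)) := by
    refine closure_minimal ?_ hΦc
    rintro _ ⟨a, -, rfl⟩
    exact hF _ a.2
  have hEc : IsClosed (Prod.fst '' closure E) := (isClosed_closure.isCompact.image continuous_fst).isClosed
  have hjh : j h ∈ Prod.fst '' closure E := by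
    refine closure_minimal ?_ hEc hh
    rintro _ ⟨a, ha, rfl⟩
    exact ⟨(ι a, σ a), subset_closure ⟨a, ha, rfl⟩, rfl⟩
  obtain ⟨⟨y, w⟩, hyw, hy⟩ := hjh
  have hy' : y = j h := hy
  subst hy'
  have hw : w = f h := hun _ _ _ (hE hyw) (hΦmem h)
  rw [← hw]
  have h1 : w ∈ Prod.snd '' closure E := ⟨(j h, w), hyw, rfl⟩
  have h2 := image_closure_subset_closure_image (f := (Prod.snd : P × V → V)) continuous_snd h1
  refine closure_mono ?_ h2
  rintro _ ⟨_, ⟨a, ha, rfl⟩, rfl⟩
  exact ⟨a, ha, rfl⟩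

/-- The closure of a commutative set is commutative. -/
theorem comm_cl {V : Type} [Group V] [TopologicalSpace V] [IsTopologicalGroup V] [T2Space V]
    {A : Set V} (h : ∀ a ∈ A, ∀ b ∈ A, a * b = b * a) :
    ∀ a ∈ closure A, ∀ b ∈ closure A, a * b = b * a := by
  have h1 : ∀ a ∈ A, ∀ b ∈ closure A, a * b = b * a := by
    intro a ha b hb
    have hc : IsClosed {b : V | a * b = b * a} :=
      isClosed_eq (continuous_const.mul continuous_id) (continuous_id.mul continuous_const)
    exact closure_minimal (fun b hb => h a ha b hb) hc hb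
  intro a ha b hb
  have hc : IsClosed {a : V | a * b = b * a} :=
    isClosed_eq (continuous_id.mul continuous_const) (continuous_const.mul continuous_id)
  exact closure_minimal (fun a ha => h1 a ha b hb) hc ha

/-- Krull: an element of all the powers of all the maximal ideals vanishes. -/
theorem krull {R : Type} [CommRing R] [IsNoetherianRing R] {x : R}
    (h : ∀ m : Ideal R, m.IsMaximal → ∀ k : ℕ, x ∈ m ^ k) : x = 0 := by
  by_contra hx
  have h1 : (Ideal.span {x} : Ideal R).annihilator ≠ ⊤ := by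
    intro h2
    have h3 : (1 : R) ∈ (Ideal.span {x} : Ideal R).annihilator := by rw [h2]; exact Submodule.mem_top
    have h4 := Submodule.mem_annihilator.1 h3 x (Ideal.mem_span_singleton_self x)
    rw [one_smul] at h4
    exact hx h4
  obtain ⟨m, hm, hle⟩ := Ideal.exists_le_maximal _ h1
  have h2 : x ∈ (⨅ i : ℕ, m ^ i • ⊤ : Submodule R R) := by
    rw [Submodule.mem_iInf]
    intro i
    rw [smul_eq_mul, Ideal.mul_top]
    exact h m hm i
  obtain ⟨r, hr⟩ := (Ideal.mem_iInf_smul_pow_eq_bot_iff m x).1 h2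
  have h3 : (1 - (r : R)) ∈ (Ideal.span {x} : Ideal R).annihilator := by
    rw [Submodule.mem_annihilator]
    intro y hy
    obtain ⟨c, rfl⟩ := Ideal.mem_span_singleton'.1 hy
    rw [smul_eq_mul] at hr ⊢
    linear_combination -c * hr
  have h4 : (1 : R) ∈ m := by
    have := m.add_mem (hle h3) r.2
    rwa [sub_add_cancel] at this
  exact hm.ne_top ((Ideal.eq_top_iff_one m).2 h4)

/-- Commutation modulo all the powers of the maximal ideals. -/
theorem comm_of_quot {R : Type} [CommRing R] [IsNoetherianRing R] {n : ℕ} {a b : GL (Fin n) R}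
    (h : ∀ (m : Ideal R), m.IsMaximal → ∀ k : ℕ,
      Matrix.GeneralLinearGroup.map (Ideal.Quotient.mk (m ^ k)) a *
        Matrix.GeneralLinearGroup.map (Ideal.Quotient.mk (m ^ k)) b =
      Matrix.GeneralLinearGroup.map (Ideal.Quotient.mk (m ^ k)) b *
        Matrix.GeneralLinearGroup.map (Ideal.Quotient.mk (m ^ k)) a) : a * b = b * a := by
  apply Units.ext
  ext i j
  rw [← sub_eq_zero]
  refine krull fun m hm k => ?_
  have h1 := h m hm k
  rw [← map_mul, ← map_mul] at h1
  have h2 := congrArg (fun g : GL (Fin n) (R ⧸ m ^ k) =>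
    (g : Matrix (Fin n) (Fin n) (R ⧸ m ^ k)) i j) h1
  exact Ideal.Quotient.eq.1 h2

end Pool.Agent.K6.H67.LR
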