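import Pool.Agent.K6.H67.LR.Fine

/-!
# Project LR (helper67): one subgroup for all the representations of given dimension
-/

set_option autoImplicit false

namespace Pool.Agent.K6.H67.LR

open Topology Matrix Pool.Agent.K6.H77.KT Pool.Agent.K6.H77.LT

open scoped commutatorElement

variable {G P Γ : Type} [Group G] [Group P] [TopologicalSpace P] [IsTopologicalGroup P]
  [Group Γ] [TopologicalSpace Γ] [IsTopologicalGroup Γ]

theorem ext_fin_cl [CompactSpace P] [T2Space P] {ι : G →* P} {j : Γ →* P} (hc : Comparison ι j)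
    {H : Subgroup Γ} (hHo : IsOpen (H : Set Γ)) (hH : H.FiniteIndex) {P' : Subgroup P}
    (hP'o : IsOpen (P' : Set P)) (hP' : P'.comap j = H) {X : Type} {W : X → Type}
    [∀ x, Group (W x)] [∀ x, Finite (W x)] (f : H →* ∀ x, W x) (hf : IsOpen (f.ker : Set H))
    (A : Set (P'.comap ι))
    (hA : ∀ σ : P'.comap ι →* ∀ x, W x, ∀ a ∈ A, ∀ b ∈ A, σ a * σ b = σ b * σ a) (a b : H)
    (ha : j a ∈ closure ((fun a : P'.comap ι => ι a) '' A))
    (hb : j b ∈ closure ((fun a : P'.comap ι => ι a) '' A)) : f a * f b = f b * f a := by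
  let _ : ∀ x, TopologicalSpace (W x) := fun _ => ⊥
  have : ∀ x, DiscreteTopology (W x) := fun _ => ⟨rfl⟩
  obtain ⟨σ, hσ⟩ := ext_cl hc hHo hH hP'o hP' f (continuous_of_ker f hf)
  refine comm_cl (A := σ '' A) ?_ _ (hσ A a ha) _ (hσ A b hb)
  rintro _ ⟨x, hx, rfl⟩ _ ⟨y, hy, rfl⟩
  exact hA σ x hx y hy

/-- **The uniform theorem for `Γ`.** -/
theorem unif_gamma [CompactSpace P] [T2Space P] {ι : G →* P} {j : Γ →* P}
    (hG : IsKSpecialGroup G) (hL : LinSolvable G) (hP : PosSolvable G) (hc : Comparison ι j)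
    {H : Subgroup Γ} (hHo : IsOpen (H : Set Γ)) (hH : H.FiniteIndex) (n : ℕ) :
    ∃ B : Subgroup Γ, B ≤ H ∧ IsOpen (B : Set Γ) ∧ B.FiniteIndex ∧
      (∀ (S : Type) [CommRing S] (ρ : H →* GL (Fin n) S), IsOpen (ρ.ker : Set H) →
        ∀ a b : H, (a : Γ) ∈ B → (b : Γ) ∈ B → ρ a * ρ b = ρ b * ρ a) ∧
      (∀ (S : Type) [CommRing S] [TopologicalSpace S] [IsTopologicalRing S] [T2Space S]
        [TotallyDisconnectedSpace S] (ρ : H →* GL (Fin n) S), Continuous ρ →
        (∃ K : Set (GL (Fin n) S), IsCompact K ∧ ∀ h : H, ρ h ∈ K) →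
        ∀ a b : H, (a : Γ) ∈ B → (b : Γ) ∈ B → ρ a * ρ b = ρ b * ρ a) := by
  obtain ⟨P', hP'o, hP'⟩ := hc.open_sub H hHo hH
  have hP'f : P'.FiniteIndex := open_fi hc.dense_j hP'o (by rw [hP']; exact hH)
  have hG'f : (P'.comap ι).FiniteIndex := Pool.Agent.K6.H86.QS.comap_fi ι hP'f
  obtain ⟨A, hA, hAc⟩ := unif_all hG hL hP hG'f n
  have hA' : (A.map (P'.comap ι).subtype).FiniteIndex := Pool.Agent.N212.SG.map_finiteIndex hG'f hA
  have hBf : ((cl ((A.map (P'.comap ι).subtype).map ι)).comap j).FiniteIndex :=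
    Pool.Agent.K6.H86.QS.comap_fi j (closure_fi hc.dense_ι hA')
  have hmem : ∀ h : H, (h : Γ) ∈ (cl ((A.map (P'.comap ι).subtype).map ι)).comap j ⊓ H →
      j h ∈ closure ((fun a : P'.comap ι => ι a) '' (A : Set (P'.comap ι))) := by
    rintro h ⟨h1, -⟩
    have h2 : j h ∈ closure (((A.map (P'.comap ι).subtype).map ι : Subgroup P) : Set P) := h1
    refine closure_mono ?_ h2
    rintro _ ⟨_, ⟨a, ha, rfl⟩, rfl⟩
    exact ⟨a, ha, rfl⟩
  refine ⟨(cl ((A.map (P'.comap ι).subtype).map ι)).comap j ⊓ H, inf_le_right,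
    ((closure_open hc.dense_ι hA').preimage hc.cont_j).inter hHo, inferInstance, ?_, ?_⟩
  · intro S _ ρ hρ a b ha hb
    obtain ⟨s, hs⟩ := descR ρ.range (fg_open hc hHo hH ρ hρ) S n ρ.range.subtype
    let R : Subalgebra ℤ S := Algebra.adjoin ℤ (s : Set S)
    have hRf : Algebra.FiniteType ℤ R := (Subalgebra.fg_iff_finiteType R).1 ⟨s, rfl⟩
    have hRn : IsNoetherianRing R := Algebra.FiniteType.isNoetherianRing ℤ R
    obtain ⟨ρ', hρ'⟩ := hs R R.val.toRingHom Subtype.val_injective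
      (fun x hx => ⟨⟨x, Algebra.subset_adjoin hx⟩, rfl⟩)
    let τ : H →* GL (Fin n) R := ρ'.comp ρ.rangeRestrict
    have hτρ : ∀ x : H, Matrix.GeneralLinearGroup.map R.val.toRingHom (τ x) = ρ x := by
      intro x
      have h1 : (Matrix.GeneralLinearGroup.map R.val.toRingHom).comp ρ' (ρ.rangeRestrict x) =
          ρ.range.subtype (ρ.rangeRestrict x) := by rw [hρ']
      exact h1
    have hτ : ρ.ker ≤ τ.ker := by
      intro x hx
      have h1 : ρ.rangeRestrict x = 1 := Subtype.ext hx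
      change ρ' (ρ.rangeRestrict x) = 1
      rw [h1, map_one]
    have hfin : ∀ x : MaximalSpectrum R × ℕ, Finite (GL (Fin n) (R ⧸ x.1.asIdeal ^ x.2)) := by
      rintro ⟨x, k⟩
      have hx := x.isMaximal
      obtain ⟨q, -, -, h⟩ := Pool.Agent.H23R2.residue_finite R x.asIdeal
      have h1 : Finite (R ⧸ x.asIdeal ^ k) :=
        Ideal.finite_quotient_pow (IsNoetherian.noetherian x.asIdeal) k
      infer_instance
    let f : H →* ∀ x : MaximalSpectrum R × ℕ, GL (Fin n) (R ⧸ x.1.asIdeal ^ x.2) :=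
      MonoidHom.pi fun x =>
        (Matrix.GeneralLinearGroup.map (Ideal.Quotient.mk (x.1.asIdeal ^ x.2))).comp τ
    have hfo : IsOpen (f.ker : Set H) := by
      refine Subgroup.isOpen_mono (H₁ := ρ.ker) ?_ hρ
      refine hτ.trans ?_
      intro g hg
      have h1 : τ g = 1 := hg
      change f g = 1
      funext x
      change (Matrix.GeneralLinearGroup.map (Ideal.Quotient.mk (x.1.asIdeal ^ x.2))) (τ g) = 1
      rw [h1, map_one]
    have h1 := ext_fin_cl hc hHo hH hP'o hP' f hfo (A : Set (P'.comap ι))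
      (fun σ x hx y hy => funext fun m =>
        hAc (R ⧸ m.1.asIdeal ^ m.2) ((Pi.evalMonoidHom _ m).comp σ) x hx y hy)
      a b (hmem a ha) (hmem b hb)
    have h2 : τ a * τ b = τ b * τ a := by
      refine comm_of_quot fun m hm k => ?_
      exact congrFun h1 (⟨m, hm⟩, k)
    rw [← hτρ a, ← hτρ b, ← map_mul, h2, map_mul]
  · intro S _ _ _ _ _ ρ hρ hK a b ha hb
    obtain ⟨K, hKc, hK⟩ := hK
    let V : Subgroup (GL (Fin n) S) := ρ.range.topologicalClosure
    have hVK : (V : Set (GL (Fin n) S)) ⊆ K := by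
      refine closure_minimal ?_ hKc.isClosed
      rintro _ ⟨h, rfl⟩
      exact hK h
    have hVc : CompactSpace V := isCompact_iff_compactSpace.1
      (hKc.of_isClosed_subset ρ.range.isClosed_topologicalClosure hVK)
    have htd : TotallyDisconnectedSpace (GL (Fin n) S) := td_gl_ring S n
    have hVtd : TotallyDisconnectedSpace V :=
      td_of_inj (f := (Subtype.val : V → GL (Fin n) S)) continuous_subtype_val
        Subtype.val_injective
    let f : H →* V := ρ.codRestrict V fun h => ρ.range.le_topologicalClosure ⟨h, rfl⟩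
    have hf : Continuous f := hρ.subtype_mk _
    obtain ⟨σ, hσ⟩ := ext_cl hc hHo hH hP'o hP' f hf
    have h1 : f a * f b = f b * f a := by
      refine comm_cl (A := σ '' (A : Set (P'.comap ι))) ?_ _ (hσ _ a (hmem a ha)) _
        (hσ _ b (hmem b hb))
      rintro _ ⟨x, hx, rfl⟩ _ ⟨y, hy, rfl⟩
      exact Subtype.ext (hAc S (V.subtype.comp σ) x hx y hy)
    exact congrArg Subtype.val h1

/-- **The uniform theorem for the étale fundamental group.** -/
theorem unif_etale [T2Space P] [CompactSpace P] {ι : G →* P} (hι : DenseRange ι)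
    (hG : IsKSpecialGroup G) (hL : LinSolvable G) (hP : PosSolvable G) {U : Subgroup P}
    (hUo : IsOpen (U : Set P)) (n : ℕ) :
    ∃ B : Subgroup P, B ≤ U ∧ IsOpen (B : Set P) ∧
      ∀ (S : Type) [CommRing S] [TopologicalSpace S] [IsTopologicalRing S] [T2Space S]
        (ρ : U →* GL (Fin n) S), Continuous ρ →
        ∀ a b : U, (a : P) ∈ B → (b : P) ∈ B → ρ a * ρ b = ρ b * ρ a := by
  have hUf : U.FiniteIndex := by
    have := Subgroup.quotient_finite_of_isOpen U hUo
    exact Subgroup.finiteIndex_of_finite_quotient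
  have hG'f : (U.comap ι).FiniteIndex := Pool.Agent.K6.H86.QS.comap_fi ι hUf
  obtain ⟨A, hA, hAc⟩ := unif_all hG hL hP hG'f n
  have hA' : (A.map (U.comap ι).subtype).FiniteIndex := Pool.Agent.N212.SG.map_finiteIndex hG'f hA
  refine ⟨cl ((A.map (U.comap ι).subtype).map ι) ⊓ U, inf_le_right,
    (closure_open hι hA').inter hUo, ?_⟩
  intro S _ _ _ _ ρ hρ a b ha hb
  let i : U.comap ι →* U := ι.subgroupComap U
  have hmem : ∀ x : U, (x : P) ∈ cl ((A.map (U.comap ι).subtype).map ι) ⊓ U →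
      ρ x ∈ closure ((ρ.comp i) '' (A : Set (U.comap ι))) := by
    rintro x ⟨hx, -⟩
    have h1 : x ∈ closure (i '' (A : Set (U.comap ι))) := by
      rw [closure_subtype]
      have h2 : (x : P) ∈ closure (((A.map (U.comap ι).subtype).map ι : Subgroup P) : Set P) := hx
      refine closure_mono ?_ h2
      rintro _ ⟨_, ⟨a, ha, rfl⟩, rfl⟩
      exact ⟨i a, ⟨a, ha, rfl⟩, rfl⟩
    have h3 := image_closure_subset_closure_image hρ ⟨x, h1, rfl⟩
    refine closure_mono ?_ h3
    rintro _ ⟨_, ⟨a, ha, rfl⟩, rfl⟩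
    exact ⟨a, ha, rfl⟩
  refine comm_cl (A := (ρ.comp i) '' (A : Set (U.comap ι))) ?_ _ (hmem a ha) _ (hmem b hb)
  rintro _ ⟨x, hx, rfl⟩ _ ⟨y, hy, rfl⟩
  exact hAc S (ρ.comp i) x hx y hy

end Pool.Agent.K6.H67.LR
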