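import Pool.Agent.K6.H67.LR.Uni
import Pool.Agent.K6.H77.LT.Vsk
import Pool.Agent.K6.H77.KT.Fin

/-!
# Project LR (helper67): representations of groups over commutative rings
-/

set_option autoImplicit false

namespace Pool.Agent.K6.H67.LR

open Matrix Pool.Agent.K6.H77.KT Pool.Agent.K6.H77.LT

open scoped commutatorElement

theorem dser_add {G : Type} [Group G] (S : Subgroup G) (a b : ℕ) :
    dser S (a + b) = dser (dser S a) b := by
  induction b with
  | zero => rfl
  | succ b ih =>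
    change ⁅dser S (a + b), dser S (a + b)⁆ = ⁅dser (dser S a) b, dser (dser S a) b⁆
    rw [ih]

/-- The elements whose images are congruent to the identity. -/
def Cong {G : Type} [Group G] {n : ℕ} {S : Type} [CommRing S] (σ : G →* GL (Fin n) S)
    (I : Ideal S) : Subgroup G :=
  ((Matrix.GeneralLinearGroup.map (Ideal.Quotient.mk I)).comp σ).ker

theorem mem_Cong {G : Type} [Group G] {n : ℕ} {S : Type} [CommRing S] {σ : G →* GL (Fin n) S}
    {I : Ideal S} {g : G} :
    g ∈ Cong σ I ↔ ∀ i j, (σ g : Matrix (Fin n) (Fin n) S) i j -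
      (1 : Matrix (Fin n) (Fin n) S) i j ∈ I := by
  have h0 : ∀ i j : Fin n, (1 : Matrix (Fin n) (Fin n) (S ⧸ I)) i j =
      Ideal.Quotient.mk I ((1 : Matrix (Fin n) (Fin n) S) i j) := by
    intro i j
    by_cases h : i = j
    · subst h; simp
    · simp [Matrix.one_apply_ne h]
  constructor
  · intro hg i j
    have h1 : (Matrix.GeneralLinearGroup.map (Ideal.Quotient.mk I)) (σ g) = 1 := hg
    have h2 := congrArg (fun x : GL (Fin n) (S ⧸ I) => (x : Matrix (Fin n) (Fin n) (S ⧸ I)) i j) h1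
    have h3 : Ideal.Quotient.mk I ((σ g : Matrix (Fin n) (Fin n) S) i j) =
        (1 : Matrix (Fin n) (Fin n) (S ⧸ I)) i j := h2
    rw [h0] at h3
    exact Ideal.Quotient.eq.1 h3
  · intro h
    change (Matrix.GeneralLinearGroup.map (Ideal.Quotient.mk I)) (σ g) = 1
    apply Units.ext
    ext i j
    change Ideal.Quotient.mk I ((σ g : Matrix (Fin n) (Fin n) S) i j) =
      (1 : Matrix (Fin n) (Fin n) (S ⧸ I)) i j
    rw [h0]
    exact Ideal.Quotient.eq.2 (h i j)

theorem cong_mono {G : Type} [Group G] {n : ℕ} {S : Type} [CommRing S] {σ : G →* GL (Fin n) S}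
    {I J : Ideal S} (h : I ≤ J) : Cong σ I ≤ Cong σ J := by
  intro g hg
  rw [mem_Cong] at hg ⊢
  exact fun i j => h (hg i j)

theorem cong_comm {G : Type} [Group G] {n : ℕ} {S : Type} [CommRing S] {σ : G →* GL (Fin n) S}
    {I : Ideal S} {x y : G} (hx : x ∈ Cong σ I) (hy : y ∈ Cong σ I) : ⁅x, y⁆ ∈ Cong σ (I * I) := by
  rw [mem_Cong] at hx hy
  change ((Matrix.GeneralLinearGroup.map (Ideal.Quotient.mk (I * I))).comp σ) ⁅x, y⁆ = 1
  rw [map_commutatorElement, commutatorElement_eq_one_iff_mul_comm, ← map_mul, ← map_mul]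
  apply Units.ext
  ext i j
  change Ideal.Quotient.mk (I * I) ((σ (x * y) : Matrix (Fin n) (Fin n) S) i j) =
    Ideal.Quotient.mk (I * I) ((σ (y * x) : Matrix (Fin n) (Fin n) S) i j)
  rw [Ideal.Quotient.eq, map_mul, map_mul, Units.val_mul, Units.val_mul, ← Matrix.sub_apply]
  have h1 : (σ x : Matrix (Fin n) (Fin n) S) * (σ y : Matrix (Fin n) (Fin n) S) -
      (σ y : Matrix (Fin n) (Fin n) S) * (σ x : Matrix (Fin n) (Fin n) S) =
      ((σ x : Matrix (Fin n) (Fin n) S) - 1) * ((σ y : Matrix (Fin n) (Fin n) S) - 1) -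
      ((σ y : Matrix (Fin n) (Fin n) S) - 1) * ((σ x : Matrix (Fin n) (Fin n) S) - 1) := by
    noncomm_ring
  rw [h1, Matrix.sub_apply, Matrix.mul_apply, Matrix.mul_apply]
  refine Ideal.sub_mem _ (Ideal.sum_mem _ fun l _ => ?_) (Ideal.sum_mem _ fun l _ => ?_)
  · exact Ideal.mul_mem_mul (hx i l) (hy l j)
  · exact Ideal.mul_mem_mul (hy i l) (hx l j)

theorem dser_cong {G : Type} [Group G] {n : ℕ} {S : Type} [CommRing S] {σ : G →* GL (Fin n) S}
    {I : Ideal S} {D : Subgroup G} (hD : D ≤ Cong σ I) (k : ℕ) :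
    dser D k ≤ Cong σ (I ^ (k + 1)) := by
  induction k with
  | zero =>
    rw [zero_add, pow_one]
    exact hD
  | succ k ih =>
    change ⁅dser D k, dser D k⁆ ≤ _
    rw [Subgroup.commutator_le]
    intro x hx y hy
    refine cong_mono ?_ (cong_comm (ih hx) (ih hy))
    rw [← pow_add]
    exact Ideal.pow_le_pow_right (by omega)

theorem vsk_of_cong {G : Type} [Group G] {n : ℕ} {S : Type} [CommRing S] {σ : G →* GL (Fin n) S}
    {I : Ideal S} (hI : IsNilpotent I) (h : VSK (Cong σ I)) : VSK σ.ker := by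
  obtain ⟨A, hA, a, ha⟩ := h
  obtain ⟨m, hm⟩ := hI
  refine ⟨A, hA, a + m, ?_⟩
  rw [dser_add]
  refine (dser_cong ha m).trans ?_
  rw [pow_succ, hm, zero_mul]
  intro g hg
  rw [mem_Cong] at hg
  rw [MonoidHom.mem_ker]
  apply Units.ext
  ext i j
  exact sub_eq_zero.1 (Ideal.mem_bot.1 (hg i j))

theorem vsk_of_va {G Q : Type} [Group G] [Group Q] {f : G →* Q} (h : VA f) : VSK f.ker := by
  obtain ⟨A, hA, hc⟩ := h
  refine ⟨A, hA, 1, ?_⟩
  change ⁅A, A⁆ ≤ _
  rw [Subgroup.commutator_le]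
  intro x hx y hy
  rw [MonoidHom.mem_ker, map_commutatorElement, commutatorElement_eq_one_iff_mul_comm]
  exact hc x hx y hy

/-- **Representations over commutative rings.** -/
theorem ring_rep {G : Type} [Group G] (hG : Group.FG G) (n : ℕ)
    (hF : ∀ (F : Type) [Field F] (ρ : G →* GL (Fin n) F), VA ρ)
    {S : Type} [CommRing S] (σ : G →* GL (Fin n) S) : VSK σ.ker := by
  classical
  let k : PrimeSpectrum S → Type := fun x => FractionRing (S ⧸ x.asIdeal)
  let φ : ∀ x : PrimeSpectrum S, S →+* k x := fun x =>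
    (algebraMap (S ⧸ x.asIdeal) (k x)).comp (Ideal.Quotient.mk x.asIdeal)
  obtain ⟨A, hA, hc⟩ := uniform hG n hF
    (fun x : PrimeSpectrum S => (Matrix.GeneralLinearGroup.map (φ x)).comp σ)
  have hAf : Group.FG A := Subgroup.fg_of_index_ne_zero A
  obtain ⟨T, hT⟩ := (Group.fg_iff_subgroup_fg A).1 hAf
  let c : G × G × Fin n × Fin n → S := fun p =>
    ((σ p.1 : Matrix (Fin n) (Fin n) S) * (σ p.2.1 : Matrix (Fin n) (Fin n) S) -
      (σ p.2.1 : Matrix (Fin n) (Fin n) S) * (σ p.1 : Matrix (Fin n) (Fin n) S)) p.2.2.1 p.2.2.2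
  let Z : Finset S := (T ×ˢ T ×ˢ (Finset.univ : Finset (Fin n × Fin n))).image c
  let I : Ideal S := Ideal.span (Z : Set S)
  have hIle : I ≤ nilradical S := by
    refine Ideal.span_le.2 ?_
    intro z hz
    obtain ⟨⟨s, t, i, j⟩, hp, rfl⟩ := Finset.mem_image.1 (Finset.mem_coe.1 hz)
    simp only [Finset.mem_product, Finset.mem_univ, and_true] at hp
    have hs : s ∈ A := by rw [← hT]; exact Subgroup.subset_closure hp.1
    have ht : t ∈ A := by rw [← hT]; exact Subgroup.subset_closure hp.2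
    change _ ∈ nilradical S
    rw [nilradical_eq_sInf, Ideal.mem_sInf]
    intro P hP
    have hP' : P.IsPrime := hP
    let x : PrimeSpectrum S := ⟨P, hP'⟩
    have h3 := hc x s hs t ht
    have h4 := congrArg (fun g : GL (Fin n) (k x) => (g : Matrix (Fin n) (Fin n) (k x)) i j) h3
    have h6 : ∀ a b : G, ((((Matrix.GeneralLinearGroup.map (φ x)).comp σ) a *
        ((Matrix.GeneralLinearGroup.map (φ x)).comp σ) b : GL (Fin n) (k x)) :
        Matrix (Fin n) (Fin n) (k x)) i j =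
        φ x (((σ a : Matrix (Fin n) (Fin n) S) * (σ b : Matrix (Fin n) (Fin n) S)) i j) := by
      intro a b
      rw [Units.val_mul, Matrix.mul_apply, Matrix.mul_apply, map_sum]
      refine Finset.sum_congr rfl fun l _ => ?_
      rw [map_mul]
      rfl
    have h5 : φ x (c (s, t, i, j)) = 0 := by
      change φ x (((σ s : Matrix (Fin n) (Fin n) S) * (σ t : Matrix (Fin n) (Fin n) S) -
        (σ t : Matrix (Fin n) (Fin n) S) * (σ s : Matrix (Fin n) (Fin n) S)) i j) = 0
      rw [Matrix.sub_apply, map_sub, ← h6 s t, ← h6 t s]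
      exact sub_eq_zero.2 h4
    have h7 : Ideal.Quotient.mk P (c (s, t, i, j)) = 0 := by
      have h8 : algebraMap (S ⧸ P) (FractionRing (S ⧸ P)) (Ideal.Quotient.mk P (c (s, t, i, j))) = 0 :=
        h5
      exact (IsFractionRing.injective (S ⧸ P) (FractionRing (S ⧸ P))) (by rw [h8, map_zero])
    exact Ideal.Quotient.eq_zero_iff_mem.1 h7
  have hI : IsNilpotent I := (Ideal.FG.isNilpotent_iff_le_nilradical ⟨Z, rfl⟩).2 hIle
  refine vsk_of_cong hI ?_
  have h1 : VA ((Matrix.GeneralLinearGroup.map (Ideal.Quotient.mk I)).comp σ) := by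
    refine ⟨A, hA, ?_⟩
    rw [← hT]
    refine comm_closure _ _ ?_
    intro s hs t ht
    rw [← map_mul, ← map_mul]
    apply Units.ext
    ext i j
    change Ideal.Quotient.mk I ((σ (s * t) : Matrix (Fin n) (Fin n) S) i j) =
      Ideal.Quotient.mk I ((σ (t * s) : Matrix (Fin n) (Fin n) S) i j)
    rw [Ideal.Quotient.eq, map_mul, map_mul, Units.val_mul, Units.val_mul, ← Matrix.sub_apply]
    refine Ideal.subset_span ?_
    refine Finset.mem_coe.2 (Finset.mem_image.2 ⟨(s, t, i, j), ?_, rfl⟩)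
    simp only [Finset.mem_product, Finset.mem_univ, and_true]
    exact ⟨hs, ht⟩
  exact vsk_of_va h1

/-- Virtually solvable images of subgroups of finite index of `G` are virtually abelian. -/
theorem va_of_vs {G : Type} [Group G] (hG : IsKSpecialGroup G) {G' : Subgroup G}
    (hG' : G'.FiniteIndex) {Q : Type} [Group Q] (σ : G' →* Q) (h : VSK σ.ker) : VA σ := by
  obtain ⟨H₀, hH₀, hgood⟩ := good_sub eig cinv split fsol cen hG
  obtain ⟨S₀, hS₀, m, hm⟩ := h
  have hmap : ∀ K : Subgroup G', K.map G'.subtype ≤ G' := by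
    rintro K _ ⟨x, -, rfl⟩
    exact x.2
  have hSf : (S₀.map G'.subtype).FiniteIndex := Pool.Agent.N212.SG.map_finiteIndex hG' hS₀
  obtain ⟨-, A, hAH, hA, hAM⟩ := hgood (G' ⊓ H₀) inf_le_right inferInstance
    (σ.ker.map G'.subtype ⊓ H₀) (S₀.map G'.subtype ⊓ H₀) m
    (inf_le_inf_right _ (hmap _)) (by
      rintro h ⟨hh1, hh2⟩ x ⟨⟨y, hy, rfl⟩, hx2⟩
      refine ⟨?_, H₀.mul_mem (H₀.mul_mem hh2 hx2) (H₀.inv_mem hh2)⟩
      exact ⟨⟨h, hh1⟩ * y * ⟨h, hh1⟩⁻¹,
        (inferInstance : σ.ker.Normal).conj_mem y hy ⟨h, hh1⟩, rfl⟩)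
    (inf_le_inf_right _ (hmap _)) inferInstance
    (le_inf ((dser_mono inf_le_left m).trans (by
      rw [← dser_map]
      exact Subgroup.map_mono hm)) ((dser_le _ m).trans inf_le_right))
  refine ⟨A.subgroupOf G', inferInstance, ?_⟩
  intro a ha b hb
  have h2 : ⁅(a : G), (b : G)⁆ ∈ σ.ker.map G'.subtype ⊓ H₀ :=
    hAM (Subgroup.commutator_mem_commutator ha hb)
  obtain ⟨⟨x, hx, hxab⟩, -⟩ := h2
  have h3 : x = ⁅a, b⁆ := Subtype.ext hxab
  have h4 : σ ⁅a, b⁆ = 1 := h3 ▸ hx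
  rwa [map_commutatorElement, commutatorElement_eq_one_iff_mul_comm] at h4

end Pool.Agent.K6.H67.LR
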