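import Pool.Agent.K6.H67.LR.Ring
import Pool.Agent.K6.H77.LT.Rep
import Pool.Agent.H23R2.Lin

/-!
# Project LR (helper67): representations of tempered fundamental groups over commutative rings

The arguments for étale, bounded and local representations follow those of helper77 (and helper70) for
fields of characteristic zero, in `Pool.Agent.K6.H77.LT`.
-/

set_option autoImplicit false

namespace Pool.Agent.K6.H67.LR

open Topology Matrix Pool.Agent.K6.H77.KT Pool.Agent.K6.H77.LT

open scoped commutatorElement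

/-- A representation of a finitely generated group over a commutative ring is defined over every subring
which contains a certain finite set (the proof of helper70 for fields). -/
theorem descR : ∀ (Q : Type) [Group Q], Group.FG Q → ∀ (k : Type) [CommRing k] (n : ℕ)
    (ρ : Q →* GL (Fin n) k), ∃ s : Finset k, ∀ (R : Type) [CommRing R] (φ : R →+* k),
      Function.Injective φ → (∀ x ∈ s, x ∈ φ.range) →
      ∃ ρ' : Q →* GL (Fin n) R, (Matrix.GeneralLinearGroup.map φ).comp ρ' = ρ := by
  classical
  intro Q _ hQ k _ n ρ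
  obtain ⟨T, hT⟩ := hQ.out
  refine ⟨(T ×ˢ (Finset.univ : Finset (Fin n)) ×ˢ (Finset.univ : Finset (Fin n))).image
      (fun a => ((ρ a.1 : GL (Fin n) k) : Matrix (Fin n) (Fin n) k) a.2.1 a.2.2) ∪
    (T ×ˢ (Finset.univ : Finset (Fin n)) ×ˢ (Finset.univ : Finset (Fin n))).image
      (fun a => (((ρ a.1)⁻¹ : GL (Fin n) k) : Matrix (Fin n) (Fin n) k) a.2.1 a.2.2), ?_⟩
  intro R _ φ hφ hs
  have hinj : Function.Injective (Matrix.GeneralLinearGroup.map (n := Fin n) φ) := by
    intro a b hab
    apply Units.ext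
    ext i j
    apply hφ
    have := congrArg (fun g : GL (Fin n) k => (g : Matrix (Fin n) (Fin n) k) i j) hab
    simpa using this
  have hmem : ∀ q : Q, ρ q ∈ (Matrix.GeneralLinearGroup.map (n := Fin n) φ).range := by
    have h1 : Subgroup.closure (T : Set Q) ≤
        ((Matrix.GeneralLinearGroup.map (n := Fin n) φ).range).comap ρ := by
      rw [Subgroup.closure_le]
      intro t ht
      have hA : ∀ i j, ∃ r : R, φ r = ((ρ t : GL (Fin n) k) : Matrix (Fin n) (Fin n) k) i j := by
        intro i j
        apply hs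
        apply Finset.mem_union_left
        rw [Finset.mem_image]
        exact ⟨(t, i, j), by simpa using ht, rfl⟩
      have hB : ∀ i j, ∃ r : R, φ r = (((ρ t)⁻¹ : GL (Fin n) k) : Matrix (Fin n) (Fin n) k) i j := by
        intro i j
        apply hs
        apply Finset.mem_union_right
        rw [Finset.mem_image]
        exact ⟨(t, i, j), by simpa using ht, rfl⟩
      choose A hA using hA
      choose B hB using hB
      have hA' : (Matrix.of A).map φ = ((ρ t : GL (Fin n) k) : Matrix (Fin n) (Fin n) k) := by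
        ext i j; exact hA i j
      have hB' : (Matrix.of B).map φ = (((ρ t)⁻¹ : GL (Fin n) k) : Matrix (Fin n) (Fin n) k) := by
        ext i j; exact hB i j
      have hmapinj : ∀ X Y : Matrix (Fin n) (Fin n) R, X.map φ = Y.map φ → X = Y := by
        intro X Y h
        ext i j
        apply hφ
        exact congrFun (congrFun h i) j
      have hAB : Matrix.of A * Matrix.of B = 1 := by
        apply hmapinj
        rw [Matrix.map_mul, hA', hB', ← Units.val_mul, mul_inv_cancel, Units.val_one,
          Matrix.map_one _ (map_zero φ) (map_one φ)]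
      have hBA : Matrix.of B * Matrix.of A = 1 := by
        apply hmapinj
        rw [Matrix.map_mul, hA', hB', ← Units.val_mul, inv_mul_cancel, Units.val_one,
          Matrix.map_one _ (map_zero φ) (map_one φ)]
      refine ⟨⟨Matrix.of A, Matrix.of B, hAB, hBA⟩, ?_⟩
      apply Units.ext
      exact hA'
    intro q
    have h2 : q ∈ Subgroup.closure (T : Set Q) := by rw [hT]; exact Subgroup.mem_top q
    exact h1 h2
  refine ⟨(MonoidHom.ofInjective hinj).symm.toMonoidHom.comp
    (ρ.codRestrict _ hmem), ?_⟩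
  ext1 q
  have h3 := MulEquiv.apply_symm_apply (MonoidHom.ofInjective hinj) (ρ.codRestrict _ hmem q)
  exact congrArg Subtype.val h3

/-- All linear representations of all subgroups of finite index over fields of positive characteristic
have virtually solvable images. -/
def PosSolvable (G : Type) [Group G] : Prop :=
  ∀ H : Subgroup G, H.FiniteIndex → ∀ p : ℕ, p.Prime → ∀ (k : Type) [Field k] [CharP k p] (n : ℕ)
    (ρ : H →* GL (Fin n) k), VirtSolvable ρ.range

theorem field_rep {G : Type} [Group G] (hG : IsKSpecialGroup G) (hL : LinSolvable G)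
    (hP : PosSolvable G) {H : Subgroup G} (hH : H.FiniteIndex) (k : Type) [Field k] (n : ℕ)
    (ρ : H →* GL (Fin n) k) : VA ρ := by
  refine va_of_vs hG hH ρ (vsk_of_range ?_)
  obtain ⟨p, hp⟩ := CharP.exists k
  rcases CharP.char_is_prime_or_zero k p with h | h
  · exact hP H hH p h k n ρ
  · subst h
    have : CharZero k := CharP.charP_to_charZero k
    exact lin_all desc hG.fg hL hH ρ

theorem fg_sub {G : Type} [Group G] (hG : Group.FG G) {H : Subgroup G} (hH : H.FiniteIndex) :
    Group.FG H := Subgroup.fg_of_index_ne_zero H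

theorem ring_vs {G : Type} [Group G] (hG : IsKSpecialGroup G) (hL : LinSolvable G)
    (hP : PosSolvable G) {H : Subgroup G} (hH : H.FiniteIndex) {S : Type} [CommRing S] {n : ℕ}
    (ρ : H →* GL (Fin n) S) : VirtSolvable ρ.range :=
  range_of_vsk (ring_rep (fg_sub hG.fg hH) n (fun F _ ρ' => field_rep hG hL hP hH F n ρ') ρ)

variable {G P Γ : Type} [Group G] [Group P] [TopologicalSpace P] [IsTopologicalGroup P]
  [Group Γ] [TopologicalSpace Γ] [IsTopologicalGroup Γ]

theorem ext_fin [CompactSpace P] [T2Space P] {ι : G →* P} {j : Γ →* P} (hc : Comparison ι j)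
    {H : Subgroup Γ} (hHo : IsOpen (H : Set Γ)) (hH : H.FiniteIndex) {X : Type} {W : X → Type}
    [∀ x, Group (W x)] [∀ x, Finite (W x)] (f : H →* ∀ x, W x) (hf : IsOpen (f.ker : Set H)) :
    ∃ (G' : Subgroup G) (_ : G'.FiniteIndex) (σ : G' →* ∀ x, W x),
      VirtSolvable σ.range → VirtSolvable f.range := by
  let _ : ∀ x, TopologicalSpace (W x) := fun _ => ⊥
  have : ∀ x, DiscreteTopology (W x) := fun _ => ⟨rfl⟩
  exact ext_to hc hHo hH f (continuous_of_ker f hf)

/-- Representations with open kernel over commutative rings. -/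
theorem open_ring [CompactSpace P] [T2Space P] {ι : G →* P} {j : Γ →* P}
    (hG : IsKSpecialGroup G) (hL : LinSolvable G) (hP : PosSolvable G) (hc : Comparison ι j)
    {H : Subgroup Γ} (hHo : IsOpen (H : Set Γ)) (hH : H.FiniteIndex) {S : Type} [CommRing S]
    {n : ℕ} (ρ : H →* GL (Fin n) S) (hρ : IsOpen (ρ.ker : Set H)) : VirtSolvable ρ.range := by
  obtain ⟨s, hs⟩ := descR ρ.range (fg_open hc hHo hH ρ hρ) S n ρ.range.subtype
  let R : Subalgebra ℤ S := Algebra.adjoin ℤ (s : Set S)
  have hRf : Algebra.FiniteType ℤ R := (Subalgebra.fg_iff_finiteType R).1 ⟨s, rfl⟩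
  have hRn : IsNoetherianRing R := Algebra.FiniteType.isNoetherianRing ℤ R
  have hRj : IsJacobsonRing R := isJacobsonRing_of_finiteType (A := ℤ)
  obtain ⟨ρ', hρ'⟩ := hs R R.val.toRingHom Subtype.val_injective
    (fun x hx => ⟨⟨x, Algebra.subset_adjoin hx⟩, rfl⟩)
  let τ : H →* GL (Fin n) R := ρ'.comp ρ.rangeRestrict
  have hρi : Function.Injective ρ' := by
    intro x y hxy
    have h1 : ρ.range.subtype x = ρ.range.subtype y := by
      rw [← hρ', MonoidHom.comp_apply, MonoidHom.comp_apply, hxy]
    exact Subtype.ext h1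
  have hτ : τ.ker = ρ.ker := by
    apply le_antisymm
    · refine (ker_le_of_inj hρi).trans ?_
      rw [MonoidHom.ker_rangeRestrict]
    · intro x hx
      have h1 : ρ.rangeRestrict x = 1 := Subtype.ext hx
      change ρ' (ρ.rangeRestrict x) = 1
      rw [h1, map_one]
  refine range_of_vsk ?_
  rw [← hτ]
  refine vsk_of_cong (IsNoetherianRing.isNilpotent_nilradical R) ?_
  let f : H →* ∀ x : MaximalSpectrum R, GL (Fin n) (R ⧸ x.asIdeal) :=
    Pi.monoidHom fun x => (Matrix.GeneralLinearGroup.map (Ideal.Quotient.mk x.asIdeal)).comp τ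
  have hker : f.ker ≤ Cong τ (nilradical R) := by
    intro g hg
    have h1 : ∀ x : MaximalSpectrum R, g ∈ Cong τ x.asIdeal := fun x => congrFun hg x
    rw [mem_Cong]
    intro a b
    have h2 : (nilradical R).jacobson = nilradical R := hRj.out (Ideal.radical_isRadical _)
    rw [← h2, Ideal.jacobson, Ideal.mem_sInf]
    rintro J ⟨-, hJ⟩
    exact mem_Cong.1 (h1 ⟨J, hJ⟩) a b
  have hfo : IsOpen (f.ker : Set H) := by
    refine Subgroup.isOpen_mono (H₁ := ρ.ker) ?_ hρ
    rw [← hτ]
    intro g hg
    have h1 : τ g = 1 := hg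
    change f g = 1
    funext x
    change (Matrix.GeneralLinearGroup.map (Ideal.Quotient.mk x.asIdeal)) (τ g) = 1
    rw [h1, map_one]
  have hfin : ∀ x : MaximalSpectrum R, Finite (GL (Fin n) (R ⧸ x.asIdeal)) := by
    intro x
    have hx := x.isMaximal
    obtain ⟨q, -, -, h⟩ := Pool.Agent.H23R2.residue_finite R x.asIdeal
    infer_instance
  obtain ⟨G', hG', σ, hσ⟩ := ext_fin hc hHo hH f hfo
  have h1 : VA σ := by
    let _ : ∀ x : MaximalSpectrum R, Field (R ⧸ x.asIdeal) := fun x =>
      have := x.isMaximal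
      Ideal.Quotient.field x.asIdeal
    obtain ⟨A, hA, hcA⟩ := uniform (fg_sub hG.fg hG') n
      (fun F _ ρ' => field_rep hG hL hP hG' F n ρ') (k := fun x : MaximalSpectrum R => R ⧸ x.asIdeal)
      (fun x => (Pi.evalMonoidHom _ x).comp σ)
    exact ⟨A, hA, fun a ha b hb => funext fun x => hcA x a ha b hb⟩
  exact (vsk_of_range (hσ (range_of_vsk (vsk_of_va h1)))).mono hker

theorem td_gl_ring (F : Type) [CommRing F] [TopologicalSpace F] [TotallyDisconnectedSpace F]
    (n : ℕ) : TotallyDisconnectedSpace (GL (Fin n) F) := by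
  have : TotallyDisconnectedSpace (Matrix (Fin n) (Fin n) F) :=
    inferInstanceAs (TotallyDisconnectedSpace (Fin n → Fin n → F))
  exact td_of_inj (f := (Units.val : GL (Fin n) F → Matrix (Fin n) (Fin n) F))
    Units.continuous_val Units.val_injective

/-- Bounded representations. -/
theorem bounded_ring [CompactSpace P] [T2Space P] {ι : G →* P}
    {j : Γ →* P} (hG : IsKSpecialGroup G) (hL : LinSolvable G)
    (hP : PosSolvable G) (hc : Comparison ι j) {H : Subgroup Γ}
    (hHo : IsOpen (H : Set Γ)) (hH : H.FiniteIndex) {F : Type} [CommRing F]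
    [TopologicalSpace F] [IsTopologicalRing F] [T2Space F] [TotallyDisconnectedSpace F] {n : ℕ}
    (ρ : H →* GL (Fin n) F) (hρ : Continuous ρ)
    (hK : ∃ K : Set (GL (Fin n) F), IsCompact K ∧ ∀ h : H, ρ h ∈ K) : VirtSolvable ρ.range := by
  obtain ⟨K, hKc, hK⟩ := hK
  let V : Subgroup (GL (Fin n) F) := ρ.range.topologicalClosure
  have hVK : (V : Set (GL (Fin n) F)) ⊆ K := by
    refine closure_minimal ?_ hKc.isClosed
    rintro _ ⟨h, rfl⟩
    exact hK h
  have hVc : CompactSpace V := isCompact_iff_compactSpace.1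
    (hKc.of_isClosed_subset ρ.range.isClosed_topologicalClosure hVK)
  have htd : TotallyDisconnectedSpace (GL (Fin n) F) := td_gl_ring F n
  have hVtd : TotallyDisconnectedSpace V :=
    td_of_inj (f := (Subtype.val : V → GL (Fin n) F)) continuous_subtype_val
      Subtype.val_injective
  let f : H →* V := ρ.codRestrict V fun h => ρ.range.le_topologicalClosure ⟨h, rfl⟩
  have hf : Continuous f := hρ.subtype_mk _
  obtain ⟨G', hG', σ, hσ⟩ := ext_to hc hHo hH f hf
  have h1 : VirtSolvable f.range := by
    refine hσ ?_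
    have h2 := ring_vs hG hL hP hG' (V.subtype.comp σ)
    exact range_ker (ker_le_of_inj V.subtype_injective) h2
  refine range_ker ?_ h1
  intro x hx
  exact congrArg Subtype.val (hx : f x = 1)

/-- Representations over locally compact totally disconnected fields. -/
theorem local_field [CompactSpace P] [T2Space P]
    {ι : G →* P} {j : Γ →* P} (hG : IsKSpecialGroup G) (hL : LinSolvable G)
    (hP : PosSolvable G) (hc : Comparison ι j)
    {H : Subgroup Γ} (hHo : IsOpen (H : Set Γ)) (hH : H.FiniteIndex) {F : Type} [Field F]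
    [TopologicalSpace F] [IsTopologicalRing F] [T2Space F]
    [TotallyDisconnectedSpace F] [LocallyCompactSpace F] {n : ℕ} (ρ : H →* GL (Fin n) F)
    (hρ : Continuous ρ) : VirtSolvable ρ.range := by
  obtain ⟨m₁, m₂, c, d, hcc, hK, hd, hcd⟩ := loc H (by
    intro U hU
    obtain ⟨U', hU', hUU⟩ := mem_nhds_subtype (H : Set Γ) (1 : H) U |>.1 hU
    obtain ⟨N, hN, hNo, hNU, -⟩ := hc.basis U' hU'
    refine ⟨N.subgroupOf H, inferInstance, hNo.preimage continuous_subtype_val, ?_⟩
    intro x hx
    exact hUU (hNU hx)) F n ρ hρ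
  have h1 := bounded_ring hG hL hP hc hHo hH c hcc hK
  have h2 := open_ring hG hL hP hc hHo hH d hd
  refine range_of_vsk (((vsk_of_range h1).inf (vsk_of_range h2)).comm ?_)
  intro x hx y hy
  have h3 := hcd x y hx.1 hx.2 hy.1 hy.2
  rw [MonoidHom.mem_ker, map_commutatorElement, commutatorElement_eq_one_iff_mul_comm, ← map_mul,
    ← map_mul, h3]

/-- Representations of the étale fundamental group. -/
theorem etale_ring [T2Space P] {ι : G →* P} (hι : DenseRange ι)
    (hG : IsKSpecialGroup G) (hL : LinSolvable G) (hP : PosSolvable G) {H : Subgroup P} (hHo : IsOpen (H : Set P))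
    (hH : H.FiniteIndex) {F : Type} [CommRing F] [TopologicalSpace F]
    [IsTopologicalRing F] [T2Space F] {n : ℕ} (ρ : H →* GL (Fin n) F) (hρ : Continuous ρ) :
    VirtSolvable ρ.range := by
  let G' : Subgroup G := H.comap ι
  have hG' : G'.FiniteIndex := Pool.Agent.K6.H86.QS.comap_fi ι hH
  let i : G' →* H := ι.subgroupComap H
  have hi : DenseRange i := by
    intro x
    rw [mem_closure_iff]
    intro U hU hxU
    obtain ⟨U', hU', rfl⟩ := isOpen_induced_iff.1 hU
    obtain ⟨g, hg⟩ := hι.exists_mem_open (hU'.inter hHo) ⟨(x : P), hxU, x.2⟩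
    exact ⟨i ⟨g, hg.2⟩, hg.1, ⟨g, hg.2⟩, rfl⟩
  have h1 := ring_vs hG hL hP hG' (ρ.comp i)
  let C : Subgroup (GL (Fin n) F) := (ρ.comp i).range.topologicalClosure
  have h2 : VirtSolvable C := by
    refine dense_solvable (K := (ρ.comp i).range)
      (f := Subgroup.inclusion (ρ.comp i).range.le_topologicalClosure) ?_ h1
    intro x
    have h1 : (x : GL (Fin n) F) ∈ closure (((ρ.comp i).range : Subgroup (GL (Fin n) F)) :
      Set (GL (Fin n) F)) := x.2
    rw [closure_subtype]
    have h2 : (Subtype.val '' (Set.range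
        (Subgroup.inclusion (ρ.comp i).range.le_topologicalClosure)) : Set (GL (Fin n) F)) =
        (((ρ.comp i).range : Subgroup (GL (Fin n) F)) : Set (GL (Fin n) F)) := by
      ext y
      constructor
      · rintro ⟨_, ⟨z, rfl⟩, rfl⟩
        exact z.2
      · intro hy
        exact ⟨⟨y, (ρ.comp i).range.le_topologicalClosure hy⟩, ⟨⟨y, hy⟩, rfl⟩, rfl⟩
    rw [h2]
    exact h1
  refine h2.mono ?_
  rintro _ ⟨x, rfl⟩
  have h3 : ρ x ∈ closure (ρ '' Set.range i) := by
    exact (image_closure_subset_closure_image hρ) ⟨x, hi x, rfl⟩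
  refine closure_mono ?_ h3
  rintro _ ⟨_, ⟨g, rfl⟩, rfl⟩
  exact ⟨g, rfl⟩

end Pool.Agent.K6.H67.LR
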