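import Mathlib
import Pool.Agent.K6.H77.KT.Stm

/-!
# Project LR (helper67): representations over commutative rings, the uniform bound

Let `G` be a finitely generated group all of whose representations over fields are virtually abelian.
Then for every family of representations `σ x` over fields (of fixed dimension) there is one subgroup of
finite index which is abelian modulo all the kernels; and for every commutative ring `S` the images of the
representations `G → GL_n(S)` are virtually solvable.
-/

set_option autoImplicit false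

namespace Pool.Agent.K6.H67.LR

open Matrix Pool.Agent.K6.H77.KT

/-- If the images of the elements of `T` commute, so do those of the elements of `closure T`. -/
theorem comm_closure {G Q : Type} [Group G] [Group Q] (f : G →* Q) (T : Set G)
    (h : ∀ s ∈ T, ∀ t ∈ T, f s * f t = f t * f s) :
    ∀ s ∈ Subgroup.closure T, ∀ t ∈ Subgroup.closure T, f s * f t = f t * f s := by
  have h1 : ∀ s ∈ T, ∀ t ∈ Subgroup.closure T, f s * f t = f t * f s := by
    intro s hs t ht
    have h2 : Subgroup.closure T ≤ (Subgroup.centralizer {f s}).comap f := by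
      rw [Subgroup.closure_le]
      intro t ht
      change f t ∈ Subgroup.centralizer {f s}
      rw [Subgroup.mem_centralizer_singleton_iff]
      exact h t ht s hs
    have h3 : f t ∈ Subgroup.centralizer {f s} := h2 ht
    rw [Subgroup.mem_centralizer_singleton_iff] at h3
    exact h3.symm
  intro s hs t ht
  have h2 : Subgroup.closure T ≤ (Subgroup.centralizer {f t}).comap f := by
    rw [Subgroup.closure_le]
    intro s hs
    change f s ∈ Subgroup.centralizer {f t}
    rw [Subgroup.mem_centralizer_singleton_iff]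
    exact h1 s hs t ht
  have h3 : f s ∈ Subgroup.centralizer {f t} := h2 hs
  rw [Subgroup.mem_centralizer_singleton_iff] at h3
  exact h3

/-- The representation over the product ring. -/
noncomputable def prodRep {G X : Type} [Group G] {n : ℕ} {k : X → Type} [∀ x, CommRing (k x)]
    (σ : ∀ x, G →* GL (Fin n) (k x)) : G →* GL (Fin n) (∀ x, k x) :=
  MonoidHom.toHomUnits
    { toFun := fun g => Matrix.of fun i j x => (σ x g : Matrix (Fin n) (Fin n) (k x)) i j
      map_one' := by
        ext i j x
        simp only [Matrix.of_apply, map_one, Units.val_one]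
        by_cases h : i = j
        · subst h; simp
        · simp [Matrix.one_apply_ne h]
      map_mul' := fun g h => by
        ext i j x
        simp only [Matrix.of_apply, map_mul, Units.val_mul, Matrix.mul_apply, Finset.sum_apply,
          Pi.mul_apply] }

theorem prodRep_apply {G X : Type} [Group G] {n : ℕ} {k : X → Type} [∀ x, CommRing (k x)]
    (σ : ∀ x, G →* GL (Fin n) (k x)) (g : G) (i j : Fin n) (x : X) :
    (prodRep σ g : Matrix (Fin n) (Fin n) (∀ x, k x)) i j x =
      (σ x g : Matrix (Fin n) (Fin n) (k x)) i j := rfl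

/-- Abelian on a subgroup of finite index. -/
def VA {G Q : Type} [Group G] [Group Q] (f : G →* Q) : Prop :=
  ∃ A : Subgroup G, A.FiniteIndex ∧ ∀ a ∈ A, ∀ b ∈ A, f a * f b = f b * f a

/-- **The uniform bound.** -/
theorem uniform {G : Type} [Group G] (hG : Group.FG G) (n : ℕ)
    (hF : ∀ (F : Type) [Field F] (ρ : G →* GL (Fin n) F), VA ρ)
    {X : Type} {k : X → Type} [∀ x, Field (k x)] (σ : ∀ x, G →* GL (Fin n) (k x)) :
    ∃ A : Subgroup G, A.FiniteIndex ∧ ∀ x, ∀ a ∈ A, ∀ b ∈ A, σ x a * σ x b = σ x b * σ x a := by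
  classical
  let R : Type := ∀ x, k x
  let S : G →* GL (Fin n) R := prodRep σ
  let c : G → G → Fin n → Fin n → R := fun s t i j =>
    ((S s : Matrix (Fin n) (Fin n) R) * (S t : Matrix (Fin n) (Fin n) R) -
      (S t : Matrix (Fin n) (Fin n) R) * (S s : Matrix (Fin n) (Fin n) R)) i j
  let d : R → R := fun r x => (r x)⁻¹
  let J : Type := {T : Finset G // (Subgroup.closure (T : Set G)).FiniteIndex}
  let u : J → R := fun T => ∏ p ∈ T.1 ×ˢ T.1 ×ˢ (Finset.univ : Finset (Fin n × Fin n)),
    (1 - c p.1 p.2.1 p.2.2.1 p.2.2.2 * d (c p.1 p.2.1 p.2.2.1 p.2.2.2))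
  -- the values of the products
  have hu : ∀ (T : J) (x : X), u T x ≠ 0 → ∀ a ∈ Subgroup.closure (T.1 : Set G),
      ∀ b ∈ Subgroup.closure (T.1 : Set G), σ x a * σ x b = σ x b * σ x a := by
    intro T x hx
    refine comm_closure (σ x) _ ?_
    intro s hs t ht
    apply Units.ext
    ext i j
    have h1 : u T x = ∏ p ∈ T.1 ×ˢ T.1 ×ˢ (Finset.univ : Finset (Fin n × Fin n)),
        (1 - c p.1 p.2.1 p.2.2.1 p.2.2.2 x * (c p.1 p.2.1 p.2.2.1 p.2.2.2 x)⁻¹) := by
      change (∏ p ∈ T.1 ×ˢ T.1 ×ˢ (Finset.univ : Finset (Fin n × Fin n)),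
        (1 - c p.1 p.2.1 p.2.2.1 p.2.2.2 * d (c p.1 p.2.1 p.2.2.1 p.2.2.2))) x = _
      rw [Finset.prod_apply]
      rfl
    rw [h1, Finset.prod_ne_zero_iff] at hx
    have h2 := hx (s, t, i, j) (by
      simp only [Finset.mem_product, Finset.mem_univ, and_true]
      exact ⟨hs, ht⟩)
    have h3 : c s t i j x = 0 := by
      by_contra h
      apply h2
      change 1 - c s t i j x * (c s t i j x)⁻¹ = 0
      rw [mul_inv_cancel₀ h, sub_self]
    have h4 : c s t i j x = (∑ l, (σ x s : Matrix (Fin n) (Fin n) (k x)) i l *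
        (σ x t : Matrix (Fin n) (Fin n) (k x)) l j) - ∑ l,
        (σ x t : Matrix (Fin n) (Fin n) (k x)) i l *
        (σ x s : Matrix (Fin n) (Fin n) (k x)) l j := by
      change ((S s : Matrix (Fin n) (Fin n) R) * (S t : Matrix (Fin n) (Fin n) R) -
        (S t : Matrix (Fin n) (Fin n) R) * (S s : Matrix (Fin n) (Fin n) R)) i j x = _
      rw [Matrix.sub_apply, Matrix.mul_apply, Matrix.mul_apply]
      change (∑ l, (S s : Matrix (Fin n) (Fin n) R) i l * (S t : Matrix (Fin n) (Fin n) R) l j) x -
        (∑ l, (S t : Matrix (Fin n) (Fin n) R) i l * (S s : Matrix (Fin n) (Fin n) R) l j) x = _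
      rw [Finset.sum_apply, Finset.sum_apply]
      rfl
    rw [h3] at h4
    rw [Units.val_mul, Units.val_mul, Matrix.mul_apply, Matrix.mul_apply]
    exact (sub_eq_zero.1 h4.symm)
  -- the ideal
  have hI : Ideal.span (Set.range u) = ⊤ := by
    by_contra hne
    obtain ⟨q, hq, hle⟩ := Ideal.exists_le_maximal _ hne
    let _ : Field (R ⧸ q) := Ideal.Quotient.field q
    let π : R →+* R ⧸ q := Ideal.Quotient.mk q
    obtain ⟨A, hA, hAc⟩ := hF (R ⧸ q) ((Matrix.GeneralLinearGroup.map π).comp S)
    have hAf : Group.FG A := Subgroup.fg_of_index_ne_zero A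
    obtain ⟨T, hT⟩ := (Group.fg_iff_subgroup_fg A).1 hAf
    let TJ : J := ⟨T, by rw [hT]; exact hA⟩
    have h1 : u TJ ∈ q := hle (Ideal.subset_span ⟨TJ, rfl⟩)
    have h2 : π (u TJ) = 1 := by
      change π (∏ p ∈ T ×ˢ T ×ˢ (Finset.univ : Finset (Fin n × Fin n)),
        (1 - c p.1 p.2.1 p.2.2.1 p.2.2.2 * d (c p.1 p.2.1 p.2.2.1 p.2.2.2))) = 1
      rw [map_prod]
      refine Finset.prod_eq_one ?_
      rintro ⟨s, t, i, j⟩ hp
      simp only [Finset.mem_product, Finset.mem_univ, and_true] at hp
      have hs : s ∈ A := by rw [← hT]; exact Subgroup.subset_closure hp.1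
      have ht : t ∈ A := by rw [← hT]; exact Subgroup.subset_closure hp.2
      have h3 := hAc s hs t ht
      have h4 := congrArg (fun g : GL (Fin n) (R ⧸ q) => (g : Matrix (Fin n) (Fin n) (R ⧸ q)) i j) h3
      have h5 : π (c s t i j) = 0 := by
        have h6 : ∀ a b : G, ((((Matrix.GeneralLinearGroup.map π).comp S) a *
            ((Matrix.GeneralLinearGroup.map π).comp S) b : GL (Fin n) (R ⧸ q)) :
            Matrix (Fin n) (Fin n) (R ⧸ q)) i j =
            π (((S a : Matrix (Fin n) (Fin n) R) * (S b : Matrix (Fin n) (Fin n) R)) i j) := by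
          intro a b
          rw [Units.val_mul, Matrix.mul_apply, Matrix.mul_apply, map_sum]
          refine Finset.sum_congr rfl fun l _ => ?_
          rw [map_mul]
          rfl
        change π (((S s : Matrix (Fin n) (Fin n) R) * (S t : Matrix (Fin n) (Fin n) R) -
          (S t : Matrix (Fin n) (Fin n) R) * (S s : Matrix (Fin n) (Fin n) R)) i j) = 0
        rw [Matrix.sub_apply, map_sub, ← h6 s t, ← h6 t s]
        exact sub_eq_zero.2 h4
      change π (1 - c s t i j * d (c s t i j)) = 1
      rw [map_sub, map_mul, h5, zero_mul, sub_zero, map_one]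
    rw [Ideal.Quotient.eq_zero_iff_mem.2 h1] at h2
    exact zero_ne_one h2
  have h1 : (1 : R) ∈ Ideal.span (Set.range u) := by rw [hI]; exact Submodule.mem_top
  obtain ⟨w, hw⟩ := (Finsupp.mem_ideal_span_range_iff_exists_finsupp).1 h1
  refine ⟨⨅ T : w.support, Subgroup.closure ((T : J).1 : Set G), ?_, ?_⟩
  · exact Subgroup.finiteIndex_iInf fun T : w.support => (T : J).2
  · intro x a ha b hb
    have h2 : ∃ T ∈ w.support, u T x ≠ 0 := by
      by_contra hall
      push Not at hall
      have h3 := congrFun hw x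
      rw [Finsupp.sum, Finset.sum_apply] at h3
      have h4 : (∑ T ∈ w.support, (w T * u T) x) = 0 := by
        refine Finset.sum_eq_zero fun T hT => ?_
        rw [Pi.mul_apply, hall T hT, mul_zero]
      rw [h4] at h3
      exact zero_ne_one h3
    obtain ⟨T, hT, hTx⟩ := h2
    rw [Subgroup.mem_iInf] at ha hb
    exact hu T x hTx a (ha ⟨T, hT⟩) b (hb ⟨T, hT⟩)

end Pool.Agent.K6.H67.LR
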